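import Mathlib

/-!
# Virtual right-angled Artin groups twisted by graph automorphisms: definitions

`VGroup Γ φ` is the group with presentation
`⟨ V, t | [u, v] = 1 for adjacent u, v ; t ^ m = 1 ; t⁻¹ v t = φ v ⟩` where `m` is the order of the
graph automorphism `φ` of `Γ`.  The generator `t` is `none : Option V`.
-/

set_option autoImplicit false

universe u

namespace Pool.Agent.Helper6.VRaag

variable {V : Type u}

/-- The relators of the virtual right-angled Artin group `A_φ` on the generators
`some v` (`v` a vertex) and `none` (the letter `t`): the commutators `[u, v]` of adjacent vertices,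
the power `t ^ m` with `m` the order of `φ`, and `t⁻¹ v t (φ v)⁻¹` for all vertices `v`. -/
def rels (Γ : SimpleGraph V) (φ : Γ ≃g Γ) : Set (FreeGroup (Option V)) :=
  {r | ∃ u v : V, Γ.Adj u v ∧ r = FreeGroup.of (some u) * FreeGroup.of (some v) *
    (FreeGroup.of (some u))⁻¹ * (FreeGroup.of (some v))⁻¹} ∪
  {FreeGroup.of none ^ orderOf φ} ∪
  {r | ∃ v : V, r = (FreeGroup.of none)⁻¹ * FreeGroup.of (some v) * FreeGroup.of none *
    (FreeGroup.of (some (φ v)))⁻¹}

/-- The virtual right-angled Artin group `A_φ`. -/
abbrev VGroup (Γ : SimpleGraph V) (φ : Γ ≃g Γ) : Type u := PresentedGroup (rels Γ φ)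

/-- The standard generating set of `A_φ`: all vertices and their inverses, `t` and `t⁻¹`. -/
def stdGens (Γ : SimpleGraph V) (φ : Γ ≃g Γ) : Set (VGroup Γ φ) :=
  {g | ∃ a : Option V, g = PresentedGroup.of a ∨ g = (PresentedGroup.of a)⁻¹}

/-- The word length `|g|_Y` of `g` with respect to the set `Y`. -/
noncomputable def wordLength {G : Type u} [Group G] (Y : Set G) (g : G) : ℕ :=
  sInf {n | ∃ l : List Y, (l.map Subtype.val).prod = g ∧ l.length = n}

/-- The conjugacy geodesic language of `G` over the alphabet `Y`: all words `w` over `Y` whose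
length is the minimum of the lengths `|h|_Y` of the elements `h` conjugate to the element
represented by `w`. -/
def ConjGeo {G : Type u} [Group G] (Y : Set G) : Language Y :=
  {w : List Y | w.length =
    sInf {n | ∃ h : G, IsConj (w.map Subtype.val).prod h ∧ wordLength Y h = n}}

end Pool.Agent.Helper6.VRaag
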