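import Pool.Agent.Helper6.VRaag.Words
import Pool.Agent.Helper6.VRaag.Defs

set_option autoImplicit false
set_option linter.unusedVariables false
set_option linter.unusedSectionVars false

universe u

namespace Pool.Agent.Helper6.VRaag

variable {V : Type u} {Γ : SimpleGraph V}

/-! ### Twisted cyclic words -/

/-- the condition that `w ψ(w) ψ²(w) ...` has no cancelling pair -/
def Cyc (ψ : Γ ≃g Γ) (w : List (V × Bool)) : Prop :=
  Red Γ w ∧ ∀ (K : ℕ) (x : V × Bool), x ∈ Last Γ w →
    (∀ l : ℕ, 1 ≤ l → l ≤ K → ∀ z ∈ w, Γ.Adj ((ψ ^ l) z.1) x.1) →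
    ml (ψ ^ (K + 1))⁻¹ (inv x) ∉ First Γ w

/-- `w ψ(w) ... ψ^(n-1)(w)` -/
def pw (ψ : Γ ≃g Γ) (w : List (V × Bool)) : ℕ → List (V × Bool)
  | 0 => []
  | n + 1 => w ++ (pw ψ w n).map (ml ψ)

theorem length_pw (ψ : Γ ≃g Γ) (w : List (V × Bool)) (n : ℕ) :
    (pw ψ w n).length = n * w.length := by
  induction n with
  | zero => simp [pw]
  | succ n ih => simp [pw, ih]; ring

theorem adj_inv_iff (ψ : Γ ≃g Γ) (a b : V) : Γ.Adj a (ψ⁻¹ b) ↔ Γ.Adj (ψ a) b := by
  rw [← ψ.map_adj_iff]
  have : ψ (ψ⁻¹ b) = b := ψ.apply_symm_apply b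
  rw [this]

theorem mem_First_pw (ψ : Γ ≃g Γ) (w : List (V × Bool)) (n : ℕ) (y : V × Bool) :
    y ∈ First Γ (pw ψ w n) ↔ ∃ a < n, ml (ψ ^ a)⁻¹ y ∈ First Γ w ∧
      ∀ l < a, ∀ z ∈ w, Γ.Adj ((ψ ^ l) z.1) y.1 := by
  induction n generalizing y with
  | zero => simp [pw]
  | succ n ih =>
    rw [pw, mem_First_append, mem_First_map', ih]
    constructor
    · rintro (h | ⟨h, a, ha, h1, h2⟩)
      · exact ⟨0, Nat.succ_pos _, by simpa [ml_one] using h, by simp⟩
      · refine ⟨a + 1, Nat.succ_lt_succ ha, ?_, ?_⟩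
        · rw [← ml_mul] at h1
          rwa [pow_succ', mul_inv_rev]
        · intro l hl z hz
          obtain _ | l := l
          · exact h z hz
          · have := h2 l (by omega) z hz
            rw [ml_fst, adj_inv_iff] at this
            rw [pow_succ']
            exact this
    · rintro ⟨a, ha, h1, h2⟩
      obtain _ | a := a
      · left
        simpa [ml_one] using h1
      · right
        refine ⟨fun z hz => by simpa using h2 0 (Nat.succ_pos _) z hz, a, by omega, ?_, ?_⟩
        · rw [← ml_mul]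
          rwa [pow_succ', mul_inv_rev] at h1
        · intro l hl z hz
          rw [ml_fst, adj_inv_iff]
          have := h2 (l + 1) (by omega) z hz
          rw [pow_succ'] at this
          exact this

theorem Cyc.red_pw {ψ : Γ ≃g Γ} {w : List (V × Bool)} (h : Cyc ψ w) (n : ℕ) :
    Red Γ (pw ψ w n) := by
  induction n with
  | zero => trivial
  | succ n ih =>
    rw [pw, Red_append]
    refine ⟨h.1, (Red_map ψ).2 ih, ?_⟩
    intro x hx hF
    rw [mem_First_map', mem_First_pw] at hF
    obtain ⟨a, ha, h1, h2⟩ := hF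
    refine h.2 a x hx ?_ ?_
    · intro l hl1 hl2 z hz
      obtain _ | l := l
      · omega
      · have := h2 l (by omega) z hz
        rw [ml_fst, adj_inv_iff] at this
        rw [pow_succ']
        exact this
    · rw [← ml_mul] at h1
      rwa [pow_succ', mul_inv_rev]

/-! ### The action on reduced traces -/

variable [DecidableEq V]

variable (Γ) in
/-- reduced words -/
abbrev RW : Type u := {w : List (V × Bool) // Red Γ w}

variable (Γ) in
/-- trace equivalence of reduced words -/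
def rtSetoid : Setoid (RW Γ) where
  r := fun w w' => Tr Γ w.1 w'.1
  iseqv := ⟨fun w => Tr.refl _, fun h => h.symm, fun h h' => h.trans h'⟩

variable (Γ) in
/-- reduced traces -/
def RT : Type u := Quotient (rtSetoid Γ)

/-- class of a reduced word -/
def rmk (w : List (V × Bool)) (h : Red Γ w) : RT Γ := Quotient.mk (rtSetoid Γ) ⟨w, h⟩

theorem rmk_eq {w w' : List (V × Bool)} {h : Red Γ w} {h' : Red Γ w'} (e : Tr Γ w w') :
    rmk w h = rmk w' h' := Quotient.sound (s := rtSetoid Γ) e

theorem rmk_surj (r : RT Γ) : ∃ w h, r = rmk w h := by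
  induction r using Quotient.ind with
  | _ w => exact ⟨w.1, w.2, rfl⟩

/-- action of a letter -/
noncomputable def actQ (x : V × Bool) : RT Γ → RT Γ :=
  Quotient.map' (s₁ := rtSetoid Γ) (s₂ := rtSetoid Γ) (fun w => ⟨act Γ x w.1, w.2.act x⟩)
    (fun _ _ h => Tr.act h x)

theorem actQ_rmk (x : V × Bool) (w : List (V × Bool)) (h : Red Γ w) :
    actQ x (rmk w h) = rmk (act Γ x w) (h.act x) := rfl

theorem actQ_actQ_inv (x : V × Bool) (r : RT Γ) : actQ x (actQ (inv x) r) = r := by
  obtain ⟨w, h, rfl⟩ := rmk_surj r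
  rw [actQ_rmk, actQ_rmk]
  exact rmk_eq (act_act_inv h x)

/-- action of a letter as a permutation -/
noncomputable def permX (x : V × Bool) : Equiv.Perm (RT Γ) where
  toFun := actQ x
  invFun := actQ (inv x)
  left_inv := fun r => by
    have := actQ_actQ_inv (Γ := Γ) (inv x) r
    rwa [inv_inv] at this
  right_inv := actQ_actQ_inv x

theorem permX_inv (x : V × Bool) : (permX (Γ := Γ) (inv x)) = (permX x)⁻¹ := by
  ext r
  rfl

theorem permX_comm {x y : V × Bool} (h : Γ.Adj x.1 y.1) :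
    Commute (permX (Γ := Γ) x) (permX y) := by
  ext r
  obtain ⟨w, hw, rfl⟩ := rmk_surj r
  exact rmk_eq (act_comm h)

/-- action of a graph automorphism -/
def mapQ (ψ : Γ ≃g Γ) : RT Γ → RT Γ :=
  Quotient.map' (s₁ := rtSetoid Γ) (s₂ := rtSetoid Γ)
    (fun w => ⟨w.1.map (ml ψ), (Red_map ψ).2 w.2⟩) (fun _ _ h => Tr.map ψ h)

theorem mapQ_rmk (ψ : Γ ≃g Γ) (w : List (V × Bool)) (h : Red Γ w) :
    mapQ ψ (rmk w h) = rmk (w.map (ml ψ)) ((Red_map ψ).2 h) := rfl

omit [DecidableEq V] in
theorem map_ml_mul (ψ ψ' : Γ ≃g Γ) (w : List (V × Bool)) :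
    w.map (ml (ψ * ψ')) = (w.map (ml ψ')).map (ml ψ) := by
  rw [List.map_map]; rfl

omit [DecidableEq V] in
theorem map_ml_one (w : List (V × Bool)) : w.map (ml (1 : Γ ≃g Γ)) = w := by
  have : (ml (1 : Γ ≃g Γ)) = id := funext ml_one
  rw [this, List.map_id]

theorem mapQ_mul (ψ ψ' : Γ ≃g Γ) (r : RT Γ) : mapQ (ψ * ψ') r = mapQ ψ (mapQ ψ' r) := by
  obtain ⟨w, h, rfl⟩ := rmk_surj r
  rw [mapQ_rmk, mapQ_rmk, mapQ_rmk]
  congr 1
  exact map_ml_mul ψ ψ' w

theorem mapQ_one (r : RT Γ) : mapQ (1 : Γ ≃g Γ) r = r := by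
  obtain ⟨w, h, rfl⟩ := rmk_surj r
  rw [mapQ_rmk]
  congr 1
  exact map_ml_one w

/-- action of graph automorphisms by permutations -/
def permT : (Γ ≃g Γ) →* Equiv.Perm (RT Γ) where
  toFun := fun ψ =>
    { toFun := mapQ ψ
      invFun := mapQ ψ⁻¹
      left_inv := fun r => by rw [← mapQ_mul, inv_mul_cancel, mapQ_one]
      right_inv := fun r => by rw [← mapQ_mul, mul_inv_cancel, mapQ_one] }
  map_one' := by
    ext r
    exact mapQ_one r
  map_mul' := fun ψ ψ' => by
    ext r
    exact mapQ_mul ψ ψ' r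

theorem permT_permX (ψ : Γ ≃g Γ) (x : V × Bool) :
    permT ψ * permX x = permX (ml ψ x) * permT ψ := by
  ext r
  obtain ⟨w, h, rfl⟩ := rmk_surj r
  apply rmk_eq
  rw [act_map]
  exact Tr.refl _

/-! ### The group -/

/-- images of the generators -/
noncomputable def genPerm (φ : Γ ≃g Γ) : Option V → Equiv.Perm (RT Γ)
  | none => permT φ⁻¹
  | some v => permX (v, true)

theorem genPerm_rels (φ : Γ ≃g Γ) : ∀ r ∈ rels Γ φ, FreeGroup.lift (genPerm φ) r = 1 := by
  rintro r ((⟨u, v, h, rfl⟩ | rfl) | ⟨v, rfl⟩)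
  · simp only [map_mul, map_inv, FreeGroup.lift_apply_of]
    change permX (u, true) * permX (v, true) * (permX (u, true))⁻¹ * (permX (v, true))⁻¹ = 1
    have h' : permX (Γ := Γ) (u, true) * permX (v, true) = permX (v, true) * permX (u, true) :=
      permX_comm h
    rw [h']
    group
  · rw [map_pow, FreeGroup.lift_apply_of]
    change (permT φ⁻¹) ^ orderOf φ = 1
    rw [← map_pow, inv_pow, pow_orderOf_eq_one, inv_one, map_one]
  · simp only [map_mul, map_inv, FreeGroup.lift_apply_of]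
    change (permT φ⁻¹)⁻¹ * permX (v, true) * permT φ⁻¹ * (permX (φ v, true))⁻¹ = 1
    rw [map_inv, _root_.inv_inv]
    have h : permT φ * permX (v, true) = permX (φ v, true) * permT φ := permT_permX φ (v, true)
    rw [h]
    group

/-- the action of the group on reduced traces -/
noncomputable def Θ (φ : Γ ≃g Γ) : VGroup Γ φ →* Equiv.Perm (RT Γ) :=
  PresentedGroup.toGroup (genPerm_rels φ)

/-- images of the generators in the automorphism group -/
def genAut (φ : Γ ≃g Γ) : Option V → (Γ ≃g Γ)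
  | none => φ
  | some _ => 1

omit [DecidableEq V] in
theorem genAut_rels (φ : Γ ≃g Γ) : ∀ r ∈ rels Γ φ, FreeGroup.lift (genAut φ) r = 1 := by
  rintro r ((⟨u, v, h, rfl⟩ | rfl) | ⟨v, rfl⟩)
  · simp only [map_mul, map_inv, FreeGroup.lift_apply_of]
    simp [genAut]
  · rw [map_pow, FreeGroup.lift_apply_of]
    exact pow_orderOf_eq_one φ
  · simp only [map_mul, map_inv, FreeGroup.lift_apply_of]
    simp [genAut]

/-- the projection to the automorphism group -/
def prj (φ : Γ ≃g Γ) : VGroup Γ φ →* (Γ ≃g Γ) := PresentedGroup.toGroup (genAut_rels φ)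

/-- letters as group elements -/
def gx (φ : Γ ≃g Γ) (x : V × Bool) : VGroup Γ φ :=
  cond x.2 (PresentedGroup.of (some x.1)) (PresentedGroup.of (some x.1))⁻¹

/-- the generator `t` -/
def tt (φ : Γ ≃g Γ) : VGroup Γ φ := PresentedGroup.of none

variable {φ : Γ ≃g Γ}

omit [DecidableEq V] in
theorem gx_inv (x : V × Bool) : gx φ (inv x) = (gx φ x)⁻¹ := by
  obtain ⟨v, b⟩ := x
  cases b
  · simp [gx, inv]
  · simp [gx, inv]

omit [DecidableEq V] in
theorem gx_comm {x y : V × Bool} (h : Γ.Adj x.1 y.1) : Commute (gx φ x) (gx φ y) := by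
  have h1 : Commute (PresentedGroup.of (some x.1) : VGroup Γ φ) (PresentedGroup.of (some y.1)) := by
    have : (PresentedGroup.mk (rels Γ φ)) (FreeGroup.of (some x.1) * FreeGroup.of (some y.1) *
      (FreeGroup.of (some x.1))⁻¹ * (FreeGroup.of (some y.1))⁻¹) = 1 :=
      PresentedGroup.one_of_mem (Or.inl (Or.inl ⟨x.1, y.1, h, rfl⟩))
    rw [map_mul, map_mul, map_mul, map_inv, map_inv, mul_inv_eq_one, mul_inv_eq_iff_eq_mul] at this
    exact this
  obtain ⟨v, b⟩ := x
  obtain ⟨v', b'⟩ := y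
  cases b <;> cases b'
  · exact h1.inv_inv
  · exact h1.inv_left
  · exact h1.inv_right
  · exact h1

omit [DecidableEq V] in
theorem tt_pow : (tt φ) ^ orderOf φ = 1 := by
  have : (PresentedGroup.mk (rels Γ φ)) (FreeGroup.of none ^ orderOf φ) = 1 :=
    PresentedGroup.one_of_mem (Or.inl (Or.inr rfl))
  rw [map_pow] at this
  exact this

omit [DecidableEq V] in
theorem tt_gx (x : V × Bool) : (tt φ)⁻¹ * gx φ x * tt φ = gx φ (ml φ x) := by
  have h1 : ∀ v : V, (tt φ)⁻¹ * PresentedGroup.of (some v) * tt φ =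
      PresentedGroup.of (some (φ v)) := by
    intro v
    have : (PresentedGroup.mk (rels Γ φ)) ((FreeGroup.of none)⁻¹ * FreeGroup.of (some v) *
      FreeGroup.of none * (FreeGroup.of (some (φ v)))⁻¹) = 1 :=
      PresentedGroup.one_of_mem (Or.inr ⟨v, rfl⟩)
    rw [map_mul, map_mul, map_mul, map_inv, map_inv, mul_inv_eq_one] at this
    exact this
  obtain ⟨v, b⟩ := x
  cases b
  · change (tt φ)⁻¹ * (PresentedGroup.of (some v))⁻¹ * tt φ = (PresentedGroup.of (some (φ v)))⁻¹
    rw [← h1 v]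
    group
  · exact h1 v

omit [DecidableEq V] in
/-- moving powers of `t` past a letter -/
theorem tt_zpow_gx (k : ℤ) (x : V × Bool) :
    tt φ ^ k * gx φ x = gx φ (ml (φ ^ (-k)) x) * tt φ ^ k := by
  have h1 : ∀ x : V × Bool, gx φ x * tt φ = tt φ * gx φ (ml φ x) := by
    intro x
    rw [← tt_gx]
    group
  have h2 : ∀ x : V × Bool, tt φ * gx φ x = gx φ (ml φ⁻¹ x) * tt φ := by
    intro x
    rw [h1, ← ml_mul, mul_inv_cancel, ml_one]
  have h3 : ∀ x : V × Bool, (tt φ)⁻¹ * gx φ x = gx φ (ml φ x) * (tt φ)⁻¹ := by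
    intro x
    rw [← tt_gx]
    group
  induction k using Int.induction_on generalizing x with
  | zero => simp [ml_one]
  | succ n ih =>
    rw [zpow_add_one, mul_assoc, h2, ← mul_assoc, ih, mul_assoc, ← ml_mul]
    congr 3
    rw [neg_add, zpow_add, zpow_neg_one]
  | pred n ih =>
    rw [zpow_sub_one, mul_assoc, h3, ← mul_assoc, ih, mul_assoc, ← ml_mul]
    congr 3
    rw [neg_sub, sub_eq_add_neg, add_comm, zpow_add, zpow_one]

/-- words as group elements -/
def io (φ : Γ ≃g Γ) (w : List (V × Bool)) : VGroup Γ φ := (w.map (gx φ)).prod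

omit [DecidableEq V] in
@[simp] theorem io_nil : io φ [] = 1 := rfl

omit [DecidableEq V] in
@[simp] theorem io_cons (x : V × Bool) (w : List (V × Bool)) : io φ (x :: w) = gx φ x * io φ w := by
  simp [io]

omit [DecidableEq V] in
@[simp] theorem io_append (w w' : List (V × Bool)) : io φ (w ++ w') = io φ w * io φ w' := by
  simp [io]

omit [DecidableEq V] in
theorem tt_zpow_io (k : ℤ) (w : List (V × Bool)) :
    tt φ ^ k * io φ w = io φ (w.map (ml (φ ^ (-k)))) * tt φ ^ k := by
  induction w with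
  | nil => simp
  | cons x w ih =>
    rw [io_cons, ← mul_assoc, tt_zpow_gx, mul_assoc, ih, List.map_cons, io_cons, mul_assoc]

omit [DecidableEq V] in
theorem io_tr {w w' : List (V × Bool)} (h : Tr Γ w w') : io φ w = io φ w' := by
  induction h with
  | rel w w' h =>
    induction h with
    | swap x y w h => rw [io_cons, io_cons, io_cons, io_cons, ← mul_assoc, (gx_comm h).eq, mul_assoc]
    | cons x h ih => rw [io_cons, io_cons, ih]
  | refl w => rfl
  | symm _ _ _ ih => exact ih.symm
  | trans _ _ _ _ _ ih1 ih2 => exact ih1.trans ih2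

theorem io_act (x : V × Bool) (w : List (V × Bool)) : io φ (act Γ x w) = gx φ x * io φ w := by
  by_cases hx : inv x ∈ First Γ w
  · rw [act_pos hx, io_tr (Tr_cons_erase hx), io_cons, gx_inv]
    group
  · rw [act_neg hx, io_cons]

theorem io_reduce (w : List (V × Bool)) : io φ (reduce Γ w) = io φ w := by
  induction w with
  | nil => rfl
  | cons x w ih =>
    change io φ (act Γ x (reduce Γ w)) = _
    rw [io_act, ih, io_cons]

omit [DecidableEq V] in
theorem io_inv (w : List (V × Bool)) : (io φ w)⁻¹ = io φ (w.reverse.map inv) := by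
  induction w with
  | nil => simp
  | cons x w ih => simp [ih, gx_inv]

omit [DecidableEq V] in
theorem exists_normal (γ : VGroup Γ φ) : ∃ (w : List (V × Bool)) (k : ℤ),
    γ = io φ w * tt φ ^ k := by
  have mul : ∀ (w w' : List (V × Bool)) (k k' : ℤ), (io φ w * tt φ ^ k) * (io φ w' * tt φ ^ k') =
      io φ (w ++ w'.map (ml (φ ^ (-k)))) * tt φ ^ (k + k') := by
    intro w w' k k'
    rw [mul_assoc, ← mul_assoc (tt φ ^ k), tt_zpow_io, io_append, zpow_add]
    group
  let H : Subgroup (VGroup Γ φ) :=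
    { carrier := {γ | ∃ (w : List (V × Bool)) (k : ℤ), γ = io φ w * tt φ ^ k}
      mul_mem' := by
        rintro _ _ ⟨w, k, rfl⟩ ⟨w', k', rfl⟩
        exact ⟨_, _, mul w w' k k'⟩
      one_mem' := ⟨[], 0, by simp⟩
      inv_mem' := by
        rintro _ ⟨w, k, rfl⟩
        refine ⟨(w.reverse.map inv).map (ml (φ ^ (-(-k)))), -k, ?_⟩
        rw [← tt_zpow_io, ← io_inv, mul_inv_rev, zpow_neg] }
  have : γ ∈ H := by
    apply PresentedGroup.generated_by (rels Γ φ) H
    intro a
    cases a with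
    | none => exact ⟨[], 1, by simp [tt]⟩
    | some v => exact ⟨[(v, true)], 0, by simp [gx]⟩
  exact this

/-! ### Length -/

/-- length of a reduced trace -/
def lenR : RT Γ → ℕ :=
  Quotient.lift (s := rtSetoid Γ) (fun w => w.1.length) (fun _ _ h => Tr.length h)

variable (Γ) in
/-- the empty trace -/
def e0 : RT Γ := rmk [] trivial

/-- the number of vertex letters needed for a group element -/
noncomputable def Lf (γ : VGroup Γ φ) : ℕ := lenR (Θ φ γ (e0 Γ))

theorem Θ_gx (x : V × Bool) : Θ φ (gx φ x) = permX x := by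
  obtain ⟨v, b⟩ := x
  have h : Θ φ (PresentedGroup.of (some v)) = permX (v, true) := PresentedGroup.toGroup.of _
  cases b
  · change Θ φ (PresentedGroup.of (some v))⁻¹ = _
    rw [map_inv, h, ← permX_inv]
    rfl
  · exact h

theorem Θ_tt : Θ φ (tt φ) = permT φ⁻¹ := PresentedGroup.toGroup.of _

theorem Θ_tt_zpow (k : ℤ) : Θ φ (tt φ ^ k) (e0 Γ) = e0 Γ := by
  rw [map_zpow, Θ_tt, ← map_zpow]
  rfl

theorem Θ_io (w : List (V × Bool)) : Θ φ (io φ w) (e0 Γ) = rmk (reduce Γ w) (reduce_red w) := by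
  induction w with
  | nil => simp; rfl
  | cons x w ih =>
    rw [io_cons, map_mul, Equiv.Perm.mul_apply, ih, Θ_gx]
    rfl

theorem Lf_normal (w : List (V × Bool)) (k : ℤ) :
    Lf (io φ w * tt φ ^ k) = (reduce Γ w).length := by
  rw [Lf, map_mul, Equiv.Perm.mul_apply, Θ_tt_zpow, Θ_io]
  rfl

theorem Lf_normal_le (w : List (V × Bool)) (k : ℤ) : Lf (io φ w * tt φ ^ k) ≤ w.length := by
  rw [Lf_normal]
  exact length_reduce_le w

theorem Lf_normal_red {w : List (V × Bool)} (h : Red Γ w) (k : ℤ) :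
    Lf (io φ w * tt φ ^ k) = w.length := by
  rw [Lf_normal, reduce_of_red h]

theorem exists_normal_red (γ : VGroup Γ φ) : ∃ (w : List (V × Bool)) (k : ℤ),
    Red Γ w ∧ γ = io φ w * tt φ ^ k ∧ Lf γ = w.length := by
  obtain ⟨w, k, rfl⟩ := exists_normal γ
  refine ⟨reduce Γ w, k, reduce_red w, by rw [io_reduce], Lf_normal w k⟩

theorem Lf_mul_le (γ γ' : VGroup Γ φ) : Lf (γ * γ') ≤ Lf γ + Lf γ' := by
  obtain ⟨w, k, hw, rfl, e⟩ := exists_normal_red γ
  obtain ⟨w', k', hw', rfl, e'⟩ := exists_normal_red γ'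
  rw [e, e']
  have : (io φ w * tt φ ^ k) * (io φ w' * tt φ ^ k') =
      io φ (w ++ w'.map (ml (φ ^ (-k)))) * tt φ ^ (k + k') := by
    rw [mul_assoc, ← mul_assoc (tt φ ^ k), tt_zpow_io, io_append, zpow_add]
    group
  rw [this]
  refine (Lf_normal_le _ _).trans ?_
  simp

theorem Lf_pow_le (γ : VGroup Γ φ) (n : ℕ) : Lf (γ ^ n) ≤ n * Lf γ := by
  induction n with
  | zero =>
    have := Lf_normal_le (Γ := Γ) (φ := φ) [] 0
    simpa using this
  | succ n ih =>
    rw [pow_succ]
    refine (Lf_mul_le _ _).trans ?_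
    rw [Nat.succ_mul]
    omega

omit [DecidableEq V] in
theorem pow_normal (w : List (V × Bool)) (k : ℤ) (n : ℕ) :
    (io φ w * tt φ ^ k) ^ n = io φ (pw (φ ^ (-k)) w n) * tt φ ^ (k * n) := by
  induction n with
  | zero => simp [pw]
  | succ n ih =>
    rw [pow_succ', ih, mul_assoc, ← mul_assoc (tt φ ^ k), tt_zpow_io, pw, io_append]
    rw [mul_assoc, mul_assoc, ← zpow_add]
    congr 3
    push_cast
    ring

/-- the key theorem: minimal words -/
theorem minimal_iff (w : List (V × Bool)) (k : ℤ) :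
    Cyc (φ ^ (-k)) w ↔ ∀ γ' : VGroup Γ φ, IsConj (io φ w * tt φ ^ k) γ' → w.length ≤ Lf γ' := by
  constructor
  · intro h γ' hγ
    obtain ⟨c, hc⟩ := isConj_iff.1 hγ
    by_contra hlt
    push Not at hlt
    let γ := io φ w * tt φ ^ k
    have e1 : ∀ n : ℕ, γ ^ n = c⁻¹ * γ' ^ n * c := by
      intro n
      rw [← hc, conj_pow]
      group
      rfl
    have e2 : ∀ n : ℕ, n * w.length ≤ Lf c⁻¹ + n * Lf γ' + Lf c := by
      intro n
      have h1 : Lf (γ ^ n) = n * w.length := by
        rw [show γ ^ n = _ from pow_normal w k n, Lf_normal_red (h.red_pw n), length_pw]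
      rw [← h1, e1]
      refine (Lf_mul_le _ _).trans ?_
      have h2 := Lf_mul_le c⁻¹ (γ' ^ n)
      have h3 := Lf_pow_le γ' n
      omega
    have e3 := e2 (Lf c⁻¹ + Lf c + 1)
    have e4 : (Lf c⁻¹ + Lf c + 1) * (Lf γ' + 1) ≤ (Lf c⁻¹ + Lf c + 1) * w.length :=
      Nat.mul_le_mul_left _ hlt
    rw [Nat.mul_add, Nat.mul_one] at e4
    omega
  · intro h
    constructor
    · apply red_of_length_reduce
      have h1 := h _ (IsConj.refl _)
      rw [Lf_normal] at h1
      exact le_antisymm (length_reduce_le w) h1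
    · intro K x hx hcomm hF
      set ψ : Γ ≃g Γ := φ ^ (-k) with hψ
      obtain ⟨α, β, hw, hβ⟩ := mem_Last_iff.1 hx
      have hconj : ∀ j : ℕ, j ≤ K → IsConj (io φ w * tt φ ^ k)
          (gx φ (ml (ψ ^ (j + 1))⁻¹ x) * (io φ (α ++ β) * tt φ ^ k)) := by
        have hmove : ∀ y : V × Bool, gx φ y * tt φ ^ k = tt φ ^ k * gx φ (ml ψ⁻¹ y) := by
          intro y
          rw [tt_zpow_gx, ← hψ, ← ml_mul, mul_inv_cancel, ml_one]
        have hcomm' : ∀ (y : V × Bool) (l : List (V × Bool)), (∀ z ∈ l, Γ.Adj z.1 y.1) →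
            gx φ y * io φ l = io φ l * gx φ y := by
          intro y l hl
          induction l with
          | nil => simp
          | cons z l ih =>
            simp only [List.mem_cons, forall_eq_or_imp] at hl
            rw [io_cons, ← mul_assoc, (gx_comm hl.1.symm).eq, mul_assoc, ih hl.2, mul_assoc]
        have hstep : ∀ (a b : VGroup Γ φ), IsConj (a * b) (b * a) := fun a b =>
          isConj_iff.2 ⟨b, by group⟩
        intro j
        induction j with
        | zero =>
          intro _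
          rw [hw, io_append, io_cons, hcomm' x β hβ]
          have : io φ α * (io φ β * gx φ x) * tt φ ^ k =
              (io φ (α ++ β) * tt φ ^ k) * gx φ (ml ψ⁻¹ x) := by
            rw [io_append, mul_assoc (io φ α * io φ β), ← hmove]
            group
          rw [this, zero_add, pow_one]
          exact hstep _ _
        | succ j ih =>
          intro hj
          refine (ih (by omega)).trans ?_
          have h1 : gx φ (ml (ψ ^ (j + 1))⁻¹ x) * (io φ (α ++ β) * tt φ ^ k) =
              (io φ (α ++ β) * tt φ ^ k) * gx φ (ml (ψ ^ (j + 1 + 1))⁻¹ x) := by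
            rw [← mul_assoc, hcomm', mul_assoc, hmove, ← ml_mul, ← mul_assoc]
            · rw [pow_succ ψ (j + 1), mul_inv_rev]
            · intro z hz
              have hz' : z ∈ w := by
                rw [hw]
                simp only [List.mem_append, List.mem_cons] at hz ⊢
                tauto
              rw [ml_fst, adj_inv_iff]
              exact hcomm (j + 1) (by omega) (by omega) z hz'
          rw [h1]
          exact hstep _ _
      have hK := hconj K le_rfl
      have hF' : ml (ψ ^ (K + 1))⁻¹ (inv x) ∈ First Γ (α ++ β) := by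
        rw [hw, mem_First_append] at hF
        rw [mem_First_append]
        obtain hF | ⟨hF1, hF2 | ⟨hF2, hF3⟩⟩ := hF
        · exact Or.inl hF
        · exfalso
          have := congrArg Prod.snd hF2
          simp [ml, inv] at this
        · exact Or.inr ⟨hF1, hF3⟩
      have h2 : gx φ (ml (ψ ^ (K + 1))⁻¹ x) * (io φ (α ++ β) * tt φ ^ k) =
          io φ ((α ++ β).erase (ml (ψ ^ (K + 1))⁻¹ (inv x))) * tt φ ^ k := by
        rw [io_tr (Tr_cons_erase hF'), io_cons, ml_inv, gx_inv]
        group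
      rw [h2] at hK
      have h3 := h _ hK
      have h4 := Lf_normal_le (Γ := Γ) (φ := φ)
        ((α ++ β).erase (ml (ψ ^ (K + 1))⁻¹ (inv x))) k
      have h5 := List.length_erase_le (a := ml (ψ ^ (K + 1))⁻¹ (inv x)) (l := α ++ β)
      have h6 : w.length = (α ++ β).length + 1 := by
        rw [hw]; simp; omega
      omega

end Pool.Agent.Helper6.VRaag
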