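import Pool.Agent.Helper6.VRaag.Group

set_option autoImplicit false
set_option linter.unusedVariables false
set_option linter.unusedSectionVars false

universe u

namespace Pool.Agent.Helper6.VRaag

variable {V : Type u} {Γ : SimpleGraph V} {φ : Γ ≃g Γ}

/-! ### Formal letters -/

variable (V) in
/-- formal letters: vertex letters and the letters `t`, `t⁻¹` -/
abbrev FL : Type u := (V × Bool) ⊕ Bool

/-- exponent of a `t`-letter -/
def te (b : Bool) : ℤ := cond b 1 (-1)

/-- evaluation of a formal letter -/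
def evl (φ : Γ ≃g Γ) : FL V → VGroup Γ φ
  | Sum.inl x => gx φ x
  | Sum.inr b => tt φ ^ te b

/-- evaluation of a formal word -/
def ev (φ : Γ ≃g Γ) (u : List (FL V)) : VGroup Γ φ := (u.map (evl φ)).prod

/-- exponent of a letter -/
def el : FL V → ℤ
  | Sum.inl _ => 0
  | Sum.inr b => te b

/-- total exponent -/
def Ex (u : List (FL V)) : ℤ := (u.map el).sum

/-- number of `t`-letters -/
def nT : List (FL V) → ℕ
  | [] => 0
  | Sum.inl _ :: u => nT u
  | Sum.inr _ :: u => nT u + 1

/-- the vertex part of a word -/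
def Ap (φ : Γ ≃g Γ) : List (FL V) → List (V × Bool)
  | [] => []
  | Sum.inl x :: u => x :: Ap φ u
  | Sum.inr b :: u => (Ap φ u).map (ml (φ ^ (-te b)))

theorem ev_eq (u : List (FL V)) : ev φ u = io φ (Ap φ u) * tt φ ^ Ex u := by
  induction u with
  | nil => simp [ev, Ap, Ex]
  | cons a u ih =>
    have h : ev φ (a :: u) = evl φ a * ev φ u := by simp [ev]
    rw [h, ih]
    cases a with
    | inl x =>
      simp [Ap, Ex, el, evl, mul_assoc]
    | inr b =>
      have h2 : Ex (Sum.inr b :: u) = te b + Ex u := by simp [Ex, el]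
      rw [h2, zpow_add, Ap, ← mul_assoc, ← mul_assoc, ← tt_zpow_io]
      rfl

theorem length_eq (u : List (FL V)) : u.length = (Ap φ u).length + nT u := by
  induction u with
  | nil => simp [Ap, nT]
  | cons a u ih =>
    cases a with
    | inl x => simp [Ap, nT, ih]; omega
    | inr b => simp [Ap, nT, ih]; omega

theorem Ex_append (u v : List (FL V)) : Ex (u ++ v) = Ex u + Ex v := by simp [Ex]

theorem nT_append (u v : List (FL V)) : nT (u ++ v) = nT u + nT v := by
  induction u with
  | nil => simp [nT]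
  | cons a u ih =>
    cases a with
    | inl x => simp [nT, ih]
    | inr b => simp [nT, ih]; omega

theorem Ap_append (u v : List (FL V)) :
    Ap φ (u ++ v) = Ap φ u ++ (Ap φ v).map (ml (φ ^ (-Ex u))) := by
  induction u with
  | nil => simp [Ap, Ex, map_ml_one]
  | cons a u ih =>
    cases a with
    | inl x => simp [Ap, ih, Ex, el]
    | inr b =>
      have h2 : Ex (Sum.inr b :: u) = te b + Ex u := by simp [Ex, el]
      rw [List.cons_append, Ap, ih, List.map_append, h2, Ap, ← map_ml_mul, neg_add, zpow_add]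

/-- words with the `t`-letters at the end -/
def std (w : List (V × Bool)) (v : List Bool) : List (FL V) :=
  w.map Sum.inl ++ v.map Sum.inr

theorem Ap_inl (w : List (V × Bool)) : Ap φ (w.map Sum.inl) = w := by
  induction w with
  | nil => rfl
  | cons x w ih => simp [Ap, ih]

theorem Ap_inr (v : List Bool) : Ap φ ((v.map Sum.inr : List (FL V))) = [] := by
  induction v with
  | nil => rfl
  | cons b v ih => simp [Ap, ih]

theorem Ap_std (w : List (V × Bool)) (v : List Bool) : Ap φ (std w v) = w := by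
  rw [std, Ap_append, Ap_inl, Ap_inr]
  simp

theorem Ex_inl (w : List (V × Bool)) : Ex (w.map Sum.inl : List (FL V)) = 0 := by
  induction w with
  | nil => rfl
  | cons x w ih =>
    simp only [Ex, List.map_cons, List.sum_cons, el] at ih ⊢
    rw [ih]; rfl

theorem Ex_inr (v : List Bool) : Ex (v.map Sum.inr : List (FL V)) = (v.map te).sum := by
  simp [Ex, Function.comp_def, el]

theorem nT_inl (w : List (V × Bool)) : nT (w.map Sum.inl : List (FL V)) = 0 := by
  induction w with
  | nil => rfl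
  | cons x w ih => simpa [nT] using ih

theorem nT_inr (v : List Bool) : nT (v.map Sum.inr : List (FL V)) = v.length := by
  induction v with
  | nil => rfl
  | cons x w ih => simpa [nT] using ih

theorem Ex_std (w : List (V × Bool)) (v : List Bool) : Ex (std w v) = (v.map te).sum := by
  rw [std, Ex_append, Ex_inl, Ex_inr, zero_add]

theorem nT_std (w : List (V × Bool)) (v : List Bool) : nT (std w v) = v.length := by
  rw [std, nT_append, nT_inl, nT_inr, zero_add]

/-- the minimal number of `t`-letters needed for a power of `φ` -/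
noncomputable def cT (φ τ : Γ ≃g Γ) : ℕ :=
  sInf {n | ∃ v : List Bool, v.length = n ∧ φ ^ (v.map te).sum = τ}

/-- the `t`-letters of a word -/
def tl : List (FL V) → List Bool
  | [] => []
  | Sum.inl _ :: u => tl u
  | Sum.inr b :: u => b :: tl u

theorem length_tl (u : List (FL V)) : (tl u).length = nT u := by
  induction u with
  | nil => rfl
  | cons a u ih =>
    cases a with
    | inl x => simpa [tl, nT] using ih
    | inr b => simpa [tl, nT] using ih

theorem sum_tl (u : List (FL V)) : ((tl u).map te).sum = Ex u := by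
  induction u with
  | nil => rfl
  | cons a u ih =>
    cases a with
    | inl x => simpa [tl, Ex, el] using ih
    | inr b => simpa [tl, Ex, el] using ih

theorem cT_le (u : List (FL V)) : cT φ (φ ^ Ex u) ≤ nT u :=
  Nat.sInf_le ⟨tl u, length_tl u, by rw [sum_tl]⟩

theorem exists_cT (k : ℤ) : ∃ v : List Bool, v.length = cT φ (φ ^ k) ∧
    φ ^ (v.map te).sum = φ ^ k := by
  apply Nat.sInf_mem (s := {n | ∃ v : List Bool, v.length = n ∧ φ ^ (v.map te).sum = φ ^ k})
  have h : ∀ n : ℕ, ((List.replicate n true).map te).sum = n := by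
    intro n
    simp [te]
  have h' : ∀ n : ℕ, ((List.replicate n false).map te).sum = -n := by
    intro n
    simp [te]
  obtain ⟨n, rfl | rfl⟩ := Int.eq_nat_or_neg k
  · exact ⟨_, List.replicate n true, rfl, by rw [h]⟩
  · exact ⟨_, List.replicate n false, rfl, by rw [h']⟩

theorem tt_zpow_eq {k k' : ℤ} (h : φ ^ k = φ ^ k') : tt φ ^ k = tt φ ^ k' := by
  have h1 : φ ^ (k - k') = 1 := by rw [zpow_sub, h, mul_inv_cancel]
  have h2 : (orderOf φ : ℤ) ∣ k - k' := orderOf_dvd_iff_zpow_eq_one.2 h1
  obtain ⟨q, hq⟩ := h2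
  have h3 : tt φ ^ (k - k') = 1 := by
    rw [hq, zpow_mul, zpow_natCast, tt_pow, one_zpow]
  rw [zpow_sub, mul_inv_eq_one] at h3
  exact h3

theorem prj_gx (x : V × Bool) : prj φ (gx φ x) = 1 := by
  obtain ⟨v, b⟩ := x
  have h : prj φ (PresentedGroup.of (some v)) = 1 := PresentedGroup.toGroup.of _
  cases b
  · change prj φ (PresentedGroup.of (some v))⁻¹ = _
    rw [map_inv, h, inv_one]
  · exact h

theorem prj_tt : prj φ (tt φ) = φ := PresentedGroup.toGroup.of _

theorem prj_io (w : List (V × Bool)) : prj φ (io φ w) = 1 := by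
  induction w with
  | nil => simp
  | cons x w ih => rw [io_cons, map_mul, prj_gx, ih, one_mul]

theorem prj_normal (w : List (V × Bool)) (k : ℤ) : prj φ (io φ w * tt φ ^ k) = φ ^ k := by
  rw [map_mul, prj_io, map_zpow, prj_tt, one_mul]

theorem prj_conj {γ γ' : VGroup Γ φ} (h : IsConj γ γ') : prj φ γ = prj φ γ' := by
  obtain ⟨c, hc⟩ := isConj_iff.1 h
  obtain ⟨w, k, rfl⟩ := exists_normal γ
  obtain ⟨w', k', rfl⟩ := exists_normal c
  rw [← hc, prj_normal, map_mul, map_mul, map_inv, prj_normal, prj_normal, ← zpow_add,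
    ← zpow_neg, ← zpow_add]
  congr 1
  ring

variable [DecidableEq V]

/-- conjugacy geodesic formal words -/
theorem formal_iff (u : List (FL V)) :
    (∀ γ' : VGroup Γ φ, IsConj (ev φ u) γ' → ∀ u', ev φ u' = γ' → u.length ≤ u'.length) ↔
      nT u = cT φ (φ ^ Ex u) ∧ Cyc (φ ^ Ex u)⁻¹ (Ap φ u) := by
  rw [← zpow_neg, minimal_iff, ← ev_eq]
  constructor
  · intro h
    obtain ⟨v, hv1, hv2⟩ := exists_cT (φ := φ) (Ex u)
    have h1 := h _ (IsConj.refl _) (std (Ap φ u) v) (by
      rw [ev_eq, ev_eq, Ap_std, Ex_std, tt_zpow_eq hv2])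
    rw [length_eq (φ := φ) u, length_eq (φ := φ) (std (Ap φ u) v), Ap_std, nT_std, hv1] at h1
    have h2 := cT_le (φ := φ) u
    refine ⟨by omega, fun γ' hγ' => ?_⟩
    obtain ⟨w', k', hw', rfl, e'⟩ := exists_normal_red γ'
    rw [e']
    have hp := prj_conj hγ'
    rw [ev_eq, prj_normal, prj_normal] at hp
    have h3 := h _ hγ' (std w' v) (by
      rw [ev_eq, Ap_std, Ex_std, tt_zpow_eq (hv2.trans hp)])
    rw [length_eq (φ := φ) u, length_eq (φ := φ) (std w' v), Ap_std, nT_std, hv1] at h3
    omega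
  · rintro ⟨h1, h2⟩ γ' hγ' u' rfl
    have h3 := h2 _ hγ'
    rw [ev_eq] at h3
    have h4 := h3.trans (Lf_normal_le _ _)
    have hp := prj_conj hγ'
    rw [ev_eq, ev_eq, prj_normal, prj_normal] at hp
    have h5 := cT_le (φ := φ) u'
    rw [← hp, ← h1] at h5
    rw [length_eq (φ := φ) u, length_eq (φ := φ) u']
    omega

/-! ### Regularity -/

/-- the data of a word that decide membership -/
def dat (φ : Γ ≃g Γ) (M : ℕ) (u : List (FL V)) :
    (Γ ≃g Γ) × Fin (M + 2) × Prop × Set (V × Bool) × Set (V × Bool) × Set (V × Bool) :=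
  (φ ^ Ex u, ⟨min (nT u) (M + 1), by omega⟩, Red Γ (Ap φ u), First Γ (Ap φ u),
    Last Γ (Ap φ u), {z | z ∈ Ap φ u})

theorem dat_snoc (M : ℕ) (u u' : List (FL V)) (a : FL V) (h : dat φ M u = dat φ M u') :
    dat φ M (u ++ [a]) = dat φ M (u' ++ [a]) := by
  simp only [dat, Prod.mk.injEq, Fin.mk.injEq] at h
  obtain ⟨h1, h2, h3, h4, h5, h6⟩ := h
  cases a with
  | inr b =>
    have e : ∀ u : List (FL V), Ap φ (u ++ [Sum.inr b]) = Ap φ u := by
      intro u
      rw [Ap_append]
      simp [Ap]
    have e2 : ∀ u : List (FL V), nT (u ++ [Sum.inr b]) = nT u + 1 := by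
      intro u
      rw [nT_append]
      rfl
    simp only [dat, Prod.mk.injEq, Fin.mk.injEq, e, e2, Ex_append, zpow_add, h1, h3, h4, h5, h6,
      and_true, true_and]
    omega
  | inl x =>
    have e : ∀ u : List (FL V), Ap φ (u ++ [Sum.inl x]) = Ap φ u ++ [ml (φ ^ Ex u)⁻¹ x] := by
      intro u
      rw [Ap_append, zpow_neg]
      simp [Ap]
    have e2 : ∀ u : List (FL V), nT (u ++ [Sum.inl x]) = nT u := by
      intro u
      rw [nT_append]
      rfl
    have e3 : ∀ u : List (FL V), Ex (u ++ [Sum.inl x]) = Ex u := by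
      intro u
      rw [Ex_append]
      simp [Ex, el]
    simp only [dat, Prod.mk.injEq, Fin.mk.injEq, e, e2, e3, h1, true_and]
    have h6' : ∀ z, z ∈ Ap φ u ↔ z ∈ Ap φ u' := fun z => Set.ext_iff.1 h6 z
    refine ⟨h2, ?_, ?_, ?_, ?_⟩
    · rw [Red_append, Red_append, h3, h5]
    · ext z
      rw [mem_First_append, mem_First_append, h4]
      simp only [h6']
    · ext z
      rw [mem_Last_snoc, mem_Last_snoc, h5]
    · ext z
      simp only [List.mem_append, Set.mem_ofPred_eq, h6']

theorem dat_append (M : ℕ) (u u' v : List (FL V)) (h : dat φ M u = dat φ M u') :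
    dat φ M (u ++ v) = dat φ M (u' ++ v) := by
  induction v generalizing u u' with
  | nil => simpa using h
  | cons a v ih =>
    have := ih _ _ (dat_snoc M u u' a h)
    simpa using this

variable (φ) in
/-- the formal conjugacy geodesic language -/
def FCG : Language (FL V) :=
  {u : List (FL V) | ∀ γ' : VGroup Γ φ, IsConj (ev φ u) γ' → ∀ u', ev φ u' = γ' →
    u.length ≤ u'.length}

theorem mem_FCG_of_dat {M : ℕ} (hM : ∀ τ, cT φ τ ≤ M) {u u' : List (FL V)}
    (h : dat φ M u = dat φ M u') (hu : u ∈ FCG φ) : u' ∈ FCG φ := by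
  have hu' := (formal_iff u).1 hu
  refine (formal_iff u').2 ?_
  simp only [dat, Prod.mk.injEq, Fin.mk.injEq] at h
  obtain ⟨h1, h2, h3, h4, h5, h6⟩ := h
  have h6' : ∀ z, z ∈ Ap φ u ↔ z ∈ Ap φ u' := fun z => Set.ext_iff.1 h6 z
  rw [← h1]
  refine ⟨?_, ?_, ?_⟩
  · have := hM (φ ^ Ex u)
    have := hu'.1
    omega
  · rw [← h3]
    exact hu'.2.1
  · intro K x hx hl
    rw [← h4]
    rw [← h5] at hx
    exact hu'.2.2 K x hx (fun l hl1 hl2 z hz => hl l hl1 hl2 z ((h6' z).1 hz))

theorem FCG_regular [Finite V] : (FCG φ).IsRegular := by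
  have hfin : Finite (Γ ≃g Γ) := by
    apply Finite.of_injective (fun f : Γ ≃g Γ => (f : V → V))
    intro f g h
    exact RelIso.coe_fn_injective h
  obtain ⟨M, hM⟩ : ∃ M, ∀ τ, cT φ τ ≤ M := by
    obtain ⟨M, hM⟩ := (Set.finite_range (cT φ)).bddAbove
    exact ⟨M, fun τ => hM ⟨τ, rfl⟩⟩
  apply Language.IsRegular.of_finite_range_leftQuotient
  have hfac : ∀ u u' : List (FL V), dat φ M u = dat φ M u' →
      (FCG φ).leftQuotient u = (FCG φ).leftQuotient u' := by
    intro u u' h
    ext v
    rw [Language.mem_leftQuotient, Language.mem_leftQuotient]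
    exact ⟨mem_FCG_of_dat hM (dat_append M u u' v h),
      mem_FCG_of_dat hM (dat_append M u' u v h.symm)⟩
  have h2 : (Set.range (dat (V := V) φ M)).Finite := Set.toFinite _
  obtain ⟨g, hg⟩ : ∃ g : _ → Language (FL V), ∀ u, (FCG φ).leftQuotient u = g (dat φ M u) := by
    classical
    refine ⟨fun d => if h : ∃ u, dat φ M u = d then (FCG φ).leftQuotient h.choose else 0, ?_⟩
    intro u
    have h : ∃ u', dat φ M u' = dat φ M u := ⟨u, rfl⟩
    simp only [dif_pos h]
    exact hfac _ _ h.choose_spec.symm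
  have : Set.range (FCG φ).leftQuotient ⊆ g '' Set.range (dat (V := V) φ M) := by
    rintro _ ⟨u, rfl⟩
    exact ⟨_, ⟨u, rfl⟩, (hg u).symm⟩
  exact (h2.image g).subset this

/-! ### Transfer to the actual alphabet -/

theorem regular_comap {α β : Type u} {L : Language α} (h : L.IsRegular) (f : β → α)
    {L' : Language β} (hL : ∀ w, w ∈ L' ↔ w.map f ∈ L) : L'.IsRegular := by
  obtain ⟨σ, i, M, hM⟩ := h
  refine ⟨σ, i, M.comap f, ?_⟩
  rw [DFA.accepts_comap, hM]
  ext w
  rw [hL]
  rfl

theorem conjGeo_regular [Finite V] : (ConjGeo (stdGens Γ φ)).IsRegular := by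
  have hsec : ∀ y : stdGens Γ φ, ∃ a : FL V, evl φ a = y := by
    rintro ⟨y, a, rfl | rfl⟩
    · cases a with
      | none => exact ⟨Sum.inr true, by simp [evl, te, tt]⟩
      | some v => exact ⟨Sum.inl (v, true), rfl⟩
    · cases a with
      | none => exact ⟨Sum.inr false, by simp [evl, te, tt]⟩
      | some v => exact ⟨Sum.inl (v, false), rfl⟩
  choose s hs using hsec
  have hlam : ∀ a : FL V, ∃ y : stdGens Γ φ, (y : VGroup Γ φ) = evl φ a := by
    rintro (⟨v, b⟩ | b)
    · cases b
      · exact ⟨⟨_, some v, Or.inr rfl⟩, rfl⟩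
      · exact ⟨⟨_, some v, Or.inl rfl⟩, rfl⟩
    · cases b
      · exact ⟨⟨_, none, Or.inr rfl⟩, by simp [evl, te, tt]⟩
      · exact ⟨⟨_, none, Or.inl rfl⟩, by simp [evl, te, tt]⟩
  choose lam hl using hlam
  have hsprod : ∀ w : List (stdGens Γ φ), ev φ (w.map s) = (w.map Subtype.val).prod := by
    intro w
    rw [ev, List.map_map]
    congr 2
    funext y
    exact hs y
  have hlprod : ∀ u : List (FL V), ((u.map lam).map Subtype.val).prod = ev φ u := by
    intro u
    rw [ev, List.map_map]
    congr 2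
    funext a
    exact hl a
  have hne : ∀ h : VGroup Γ φ, ∃ l : List (stdGens Γ φ),
      (l.map Subtype.val).prod = h ∧ l.length = wordLength (stdGens Γ φ) h := by
    intro h
    have := Nat.sInf_mem (s := {n | ∃ l : List (stdGens Γ φ),
      (l.map Subtype.val).prod = h ∧ l.length = n}) (by
        obtain ⟨w, k, rfl⟩ := exists_normal h
        obtain ⟨v, hv1, hv2⟩ := exists_cT (φ := φ) k
        refine ⟨_, (std w v).map lam, ?_, rfl⟩
        rw [hlprod, ev_eq, Ap_std, Ex_std, tt_zpow_eq hv2])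
    exact this
  have hle : ∀ l : List (stdGens Γ φ),
      wordLength (stdGens Γ φ) ((l.map Subtype.val).prod) ≤ l.length := by
    intro l
    exact Nat.sInf_le ⟨l, rfl, rfl⟩
  apply regular_comap (FCG_regular (φ := φ)) s
  intro w
  let T : Set ℕ := {n | ∃ h : VGroup Γ φ, IsConj (w.map Subtype.val).prod h ∧
    wordLength (stdGens Γ φ) h = n}
  constructor
  · intro hw γ' hγ' u' hu'
    rw [hsprod] at hγ'
    rw [List.length_map]
    have hw' : w.length = sInf T := hw
    rw [hw']
    have h1 : wordLength (stdGens Γ φ) γ' ∈ T := ⟨γ', hγ', rfl⟩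
    refine (Nat.sInf_le h1).trans ?_
    have := hle (u'.map lam)
    rw [hlprod, hu', List.length_map] at this
    exact this
  · intro hw
    have hw' : ∀ γ' : VGroup Γ φ, IsConj (ev φ (w.map s)) γ' → ∀ u', ev φ u' = γ' →
      (w.map s).length ≤ u'.length := hw
    rw [hsprod, List.length_map] at hw'
    change w.length = sInf T
    have h1 : wordLength (stdGens Γ φ) (w.map Subtype.val).prod ∈ T := ⟨_, IsConj.refl _, rfl⟩
    apply le_antisymm
    · apply le_csInf ⟨_, h1⟩
      rintro n ⟨h, hh, rfl⟩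
      obtain ⟨l, hl1, hl2⟩ := hne h
      have := hw' h hh (l.map s) (by rw [hsprod, hl1])
      rwa [List.length_map, hl2] at this
    · exact (Nat.sInf_le h1).trans (hle w)

end Pool.Agent.Helper6.VRaag
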