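import Mathlib

/-!
# Words over the letters of a right-angled Artin group
-/

set_option autoImplicit false

universe u

namespace Pool.Agent.Helper6.VRaag

variable {V : Type u}

/-- the inverse letter -/
def inv (x : V × Bool) : V × Bool := (x.1, !x.2)

@[simp] theorem inv_inv (x : V × Bool) : inv (inv x) = x := by
  simp [inv]

@[simp] theorem inv_fst (x : V × Bool) : (inv x).1 = x.1 := rfl

theorem inv_ne (x : V × Bool) : inv x ≠ x := by
  intro h
  have := congrArg Prod.snd h
  simp [inv] at this

theorem inv_injective : Function.Injective (inv : V × Bool → V × Bool) := fun x y h => by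
  rw [← inv_inv x, h, inv_inv]

variable (Γ : SimpleGraph V)

/-- the letters that can be moved to the front -/
def First : List (V × Bool) → Set (V × Bool)
  | [] => ∅
  | x :: w => {y | y = x ∨ (Γ.Adj x.1 y.1 ∧ y ∈ First w)}

/-- words without a cancelling pair -/
def Red : List (V × Bool) → Prop
  | [] => True
  | x :: w => Red w ∧ inv x ∉ First Γ w

variable {Γ}

@[simp] theorem mem_First_nil {y : V × Bool} : y ∈ First Γ [] ↔ False := Iff.rfl

@[simp] theorem mem_First_cons {x y : V × Bool} {w : List (V × Bool)} :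
    y ∈ First Γ (x :: w) ↔ y = x ∨ (Γ.Adj x.1 y.1 ∧ y ∈ First Γ w) := Iff.rfl

@[simp] theorem Red_nil : Red Γ [] ↔ True := Iff.rfl

@[simp] theorem Red_cons {x : V × Bool} {w : List (V × Bool)} :
    Red Γ (x :: w) ↔ Red Γ w ∧ inv x ∉ First Γ w := Iff.rfl

theorem mem_First_append {u v : List (V × Bool)} {y : V × Bool} :
    y ∈ First Γ (u ++ v) ↔ y ∈ First Γ u ∨ ((∀ z ∈ u, Γ.Adj z.1 y.1) ∧ y ∈ First Γ v) := by
  induction u with
  | nil => simp
  | cons x u ih =>
    simp only [List.cons_append, mem_First_cons, ih, List.mem_cons, forall_eq_or_imp]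
    tauto

theorem mem_First_iff {w : List (V × Bool)} {y : V × Bool} :
    y ∈ First Γ w ↔ ∃ α β, w = α ++ y :: β ∧ ∀ z ∈ α, Γ.Adj z.1 y.1 := by
  constructor
  · induction w with
    | nil => simp
    | cons x w ih =>
      rintro (rfl | ⟨h1, h2⟩)
      · exact ⟨[], w, rfl, by simp⟩
      · obtain ⟨α, β, rfl, h⟩ := ih h2
        refine ⟨x :: α, β, rfl, ?_⟩
        simp only [List.mem_cons, forall_eq_or_imp]
        exact ⟨h1, h⟩
  · rintro ⟨α, β, rfl, h⟩
    rw [mem_First_append]
    exact Or.inr ⟨h, Or.inl rfl⟩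

theorem mem_of_mem_First {w : List (V × Bool)} {y : V × Bool} (h : y ∈ First Γ w) : y ∈ w := by
  obtain ⟨α, β, rfl, _⟩ := mem_First_iff.1 h
  simp

/-- the letters that can be moved to the end -/
def Last (Γ : SimpleGraph V) (w : List (V × Bool)) : Set (V × Bool) := First Γ w.reverse

theorem mem_Last_iff {w : List (V × Bool)} {y : V × Bool} :
    y ∈ Last Γ w ↔ ∃ α β, w = α ++ y :: β ∧ ∀ z ∈ β, Γ.Adj z.1 y.1 := by
  rw [Last, mem_First_iff]
  constructor
  · rintro ⟨α, β, h, h'⟩
    refine ⟨β.reverse, α.reverse, ?_, by simpa using h'⟩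
    rw [← List.reverse_reverse w, h]
    simp
  · rintro ⟨α, β, rfl, h'⟩
    exact ⟨β.reverse, α.reverse, by simp, by simpa using h'⟩

theorem mem_Last_snoc {w : List (V × Bool)} {x y : V × Bool} :
    y ∈ Last Γ (w ++ [x]) ↔ y = x ∨ (Γ.Adj x.1 y.1 ∧ y ∈ Last Γ w) := by
  simp [Last]

theorem mem_Last_cons {w : List (V × Bool)} {x y : V × Bool} :
    y ∈ Last Γ (x :: w) ↔ y ∈ Last Γ w ∨ ((∀ z ∈ w, Γ.Adj z.1 y.1) ∧ y = x) := by
  simp [Last, mem_First_append]

theorem Red_append {u v : List (V × Bool)} :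
    Red Γ (u ++ v) ↔ Red Γ u ∧ Red Γ v ∧ ∀ x ∈ Last Γ u, inv x ∉ First Γ v := by
  induction u with
  | nil => simp [Last]
  | cons x u ih =>
    simp only [List.cons_append, Red_cons, ih, mem_First_append, mem_Last_cons]
    constructor
    · rintro ⟨⟨h1, h2, h3⟩, h4⟩
      refine ⟨⟨h1, fun h => h4 (Or.inl h)⟩, h2, ?_⟩
      rintro y (hy | ⟨hy, rfl⟩) hF
      · exact h3 y hy hF
      · exact h4 (Or.inr ⟨hy, hF⟩)
    · rintro ⟨⟨h1, h2⟩, h3, h4⟩
      refine ⟨⟨h1, h3, fun y hy => h4 y (Or.inl hy)⟩, ?_⟩
      rintro (h | ⟨h, h'⟩)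
      · exact h2 h
      · exact h4 x (Or.inr ⟨h, rfl⟩) h'

/-! ### Trace equivalence -/

variable (Γ) in
/-- elementary swaps of adjacent commuting letters -/
inductive Sw : List (V × Bool) → List (V × Bool) → Prop
  | swap (x y : V × Bool) (w : List (V × Bool)) (h : Γ.Adj x.1 y.1) : Sw (x :: y :: w) (y :: x :: w)
  | cons (x : V × Bool) {w w' : List (V × Bool)} (h : Sw w w') : Sw (x :: w) (x :: w')

variable (Γ) in
/-- trace equivalence -/
def Tr : List (V × Bool) → List (V × Bool) → Prop := Relation.EqvGen (Sw Γ)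

theorem Tr.refl (w : List (V × Bool)) : Tr Γ w w := Relation.EqvGen.refl w
theorem Tr.symm {w w' : List (V × Bool)} (h : Tr Γ w w') : Tr Γ w' w := Relation.EqvGen.symm _ _ h
theorem Tr.trans {w w' w'' : List (V × Bool)} (h : Tr Γ w w') (h' : Tr Γ w' w'') : Tr Γ w w'' :=
  Relation.EqvGen.trans _ _ _ h h'

theorem Tr.of_sw {w w' : List (V × Bool)} (h : Sw Γ w w') : Tr Γ w w' :=
  Relation.EqvGen.rel _ _ h

theorem Tr.cons (x : V × Bool) {w w' : List (V × Bool)} (h : Tr Γ w w') :
    Tr Γ (x :: w) (x :: w') := by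
  induction h with
  | rel w w' h => exact Tr.of_sw (Sw.cons x h)
  | refl w => exact Tr.refl _
  | symm _ _ _ ih => exact ih.symm
  | trans _ _ _ _ _ ih1 ih2 => exact ih1.trans ih2

theorem Sw.length {w w' : List (V × Bool)} (h : Sw Γ w w') : w.length = w'.length := by
  induction h with
  | swap x y w h => simp
  | cons x h ih => simp [ih]

theorem Tr.length {w w' : List (V × Bool)} (h : Tr Γ w w') : w.length = w'.length := by
  induction h with
  | rel w w' h => exact h.length
  | refl w => rfl
  | symm _ _ _ ih => exact ih.symm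
  | trans _ _ _ _ _ ih1 ih2 => exact ih1.trans ih2

theorem Sw.first {w w' : List (V × Bool)} (h : Sw Γ w w') : First Γ w = First Γ w' := by
  induction h with
  | swap x y w h =>
    ext z
    simp only [mem_First_cons]
    constructor
    · rintro (rfl | ⟨h1, rfl | ⟨h2, h3⟩⟩)
      · exact Or.inr ⟨h.symm, Or.inl rfl⟩
      · exact Or.inl rfl
      · exact Or.inr ⟨h2, Or.inr ⟨h1, h3⟩⟩
    · rintro (rfl | ⟨h1, rfl | ⟨h2, h3⟩⟩)
      · exact Or.inr ⟨h, Or.inl rfl⟩
      · exact Or.inl rfl
      · exact Or.inr ⟨h2, Or.inr ⟨h1, h3⟩⟩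
  | cons x h ih =>
    ext z
    simp only [mem_First_cons, ih]

theorem Tr.first {w w' : List (V × Bool)} (h : Tr Γ w w') : First Γ w = First Γ w' := by
  induction h with
  | rel w w' h => exact h.first
  | refl w => rfl
  | symm _ _ _ ih => exact ih.symm
  | trans _ _ _ _ _ ih1 ih2 => exact ih1.trans ih2

theorem Sw.red {w w' : List (V × Bool)} (h : Sw Γ w w') : Red Γ w ↔ Red Γ w' := by
  induction h with
  | swap x y w h =>
    simp only [Red_cons, mem_First_cons, inv_fst]
    have e1 : inv x ≠ y := by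
      rintro rfl
      exact Γ.loopless.irrefl _ h
    have e2 : inv y ≠ x := by
      rintro rfl
      exact Γ.loopless.irrefl _ h
    have h' := h.symm
    tauto
  | cons x h ih =>
    simp only [Red_cons, ih, h.first]

theorem Tr.red {w w' : List (V × Bool)} (h : Tr Γ w w') : Red Γ w ↔ Red Γ w' := by
  induction h with
  | rel w w' h => exact h.red
  | refl w => rfl
  | symm _ _ _ ih => exact ih.symm
  | trans _ _ _ _ _ ih1 ih2 => exact ih1.trans ih2

section erase

variable [DecidableEq V]

theorem Sw.erase {w w' : List (V × Bool)} (h : Sw Γ w w') (z : V × Bool) :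
    Tr Γ (w.erase z) (w'.erase z) := by
  induction h with
  | swap x y w h =>
    have hxy : x ≠ y := by
      rintro rfl
      exact Γ.loopless.irrefl _ h
    by_cases h1 : x = z
    · subst h1
      rw [List.erase_cons_head, List.erase_cons_tail (by simpa using hxy.symm),
        List.erase_cons_head]
      exact Tr.refl _
    · by_cases h2 : y = z
      · subst h2
        rw [List.erase_cons_head, List.erase_cons_tail (by simpa using hxy),
          List.erase_cons_head]
        exact Tr.refl _
      · rw [List.erase_cons_tail (by simpa using h1), List.erase_cons_tail (by simpa using h2),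
          List.erase_cons_tail (by simpa using h2), List.erase_cons_tail (by simpa using h1)]
        exact Tr.of_sw (Sw.swap x y _ h)
  | @cons x w w' h ih =>
    by_cases h1 : x = z
    · subst h1
      rw [List.erase_cons_head, List.erase_cons_head]
      exact Tr.of_sw h
    · rw [List.erase_cons_tail (by simpa using h1), List.erase_cons_tail (by simpa using h1)]
      exact Tr.cons x ih

theorem Tr.erase {w w' : List (V × Bool)} (h : Tr Γ w w') (z : V × Bool) :
    Tr Γ (w.erase z) (w'.erase z) := by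
  induction h with
  | rel w w' h => exact h.erase z
  | refl w => exact Tr.refl _
  | symm _ _ _ ih => exact ih.symm
  | trans _ _ _ _ _ ih1 ih2 => exact ih1.trans ih2

theorem Tr_cons_erase {w : List (V × Bool)} {y : V × Bool} (h : y ∈ First Γ w) :
    Tr Γ w (y :: w.erase y) := by
  induction w with
  | nil => exact absurd h (by simp)
  | cons x w ih =>
    by_cases hxy : x = y
    · subst hxy
      rw [List.erase_cons_head]
      exact Tr.refl _
    · obtain h1 | ⟨h1, h2⟩ := h
      · exact absurd h1.symm hxy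
      · rw [List.erase_cons_tail (by simpa using hxy)]
        exact (Tr.cons x (ih h2)).trans (Tr.of_sw (Sw.swap x y _ h1))

open Classical in
variable (Γ) in
/-- left multiplication of a reduced word by a letter -/
noncomputable def act (x : V × Bool) (w : List (V × Bool)) : List (V × Bool) :=
  if inv x ∈ First Γ w then w.erase (inv x) else x :: w

theorem act_pos {x : V × Bool} {w : List (V × Bool)} (h : inv x ∈ First Γ w) :
    act Γ x w = w.erase (inv x) := if_pos h

theorem act_neg {x : V × Bool} {w : List (V × Bool)} (h : inv x ∉ First Γ w) :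
    act Γ x w = x :: w := if_neg h

theorem Tr.act {w w' : List (V × Bool)} (h : Tr Γ w w') (x : V × Bool) :
    Tr Γ (act Γ x w) (act Γ x w') := by
  by_cases hx : inv x ∈ First Γ w
  · rw [act_pos hx, act_pos (h.first ▸ hx)]
    exact h.erase _
  · rw [act_neg hx, act_neg (h.first ▸ hx)]
    exact Tr.cons x h

theorem Red.act {w : List (V × Bool)} (h : Red Γ w) (x : V × Bool) : Red Γ (act Γ x w) := by
  by_cases hx : inv x ∈ First Γ w
  · rw [act_pos hx]
    exact ((Tr_cons_erase hx).red.1 h).1
  · rw [act_neg hx]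
    exact ⟨h, hx⟩

theorem act_act_inv {w : List (V × Bool)} (h : Red Γ w) (x : V × Bool) :
    Tr Γ (VRaag.act Γ x (VRaag.act Γ (inv x) w)) w := by
  by_cases hx : x ∈ First Γ w
  · have hx' : inv (inv x) ∈ First Γ w := by rwa [inv_inv]
    rw [act_pos hx', inv_inv]
    have h1 := Tr_cons_erase hx
    have h2 := h1.red.1 h
    rw [act_neg h2.2]
    exact h1.symm
  · have hx' : inv (inv x) ∉ First Γ w := by rwa [inv_inv]
    rw [act_neg hx', act_pos (show inv x ∈ First Γ (inv x :: w) from Or.inl rfl),
      List.erase_cons_head]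
    exact Tr.refl _

theorem act_comm {w : List (V × Bool)} {x y : V × Bool} (hxy : Γ.Adj x.1 y.1) :
    Tr Γ (VRaag.act Γ x (VRaag.act Γ y w)) (VRaag.act Γ y (VRaag.act Γ x w)) := by
  have key : ∀ {x y : V × Bool} {w : List (V × Bool)}, Γ.Adj x.1 y.1 → inv y ∈ First Γ w →
      (inv x ∈ First Γ w ↔ inv x ∈ First Γ (w.erase (inv y))) := by
    intro x y w hxy hy
    rw [(Tr_cons_erase hy).first, mem_First_cons]
    simp only [inv_fst]
    have e1 : inv x ≠ inv y := by
      intro e
      rw [inv_injective e] at hxy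
      exact Γ.loopless.irrefl _ hxy
    have := hxy.symm
    tauto
  have key2 : ∀ {x y : V × Bool} {w : List (V × Bool)}, Γ.Adj x.1 y.1 →
      (inv x ∈ First Γ (y :: w) ↔ inv x ∈ First Γ w) := by
    intro x y w hxy
    rw [mem_First_cons]
    simp only [inv_fst]
    have e1 : inv x ≠ y := by
      rintro rfl
      exact Γ.loopless.irrefl _ hxy
    have := hxy.symm
    tauto
  have ne : ∀ {x y : V × Bool}, Γ.Adj x.1 y.1 → x ≠ inv y := by
    rintro x y h rfl
    exact Γ.loopless.irrefl _ h
  by_cases hx : inv x ∈ First Γ w <;> by_cases hy : inv y ∈ First Γ w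
  · rw [act_pos hx, act_pos hy, act_pos ((key hxy hy).1 hx), act_pos ((key hxy.symm hx).1 hy),
      List.erase_comm]
    exact Tr.refl _
  · rw [act_pos hx, act_neg hy, act_pos ((key2 hxy).2 hx),
      act_neg (fun h => hy ((key hxy.symm hx).2 h)),
      List.erase_cons_tail (by simpa using ne hxy.symm)]
    exact Tr.refl _
  · rw [act_neg hx, act_pos hy, act_neg (fun h => hx ((key hxy hy).2 h)),
      act_pos ((key2 hxy.symm).2 hy),
      List.erase_cons_tail (by simpa using ne hxy)]
    exact Tr.refl _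
  · rw [act_neg hx, act_neg hy, act_neg (fun h => hx ((key2 hxy).1 h)),
      act_neg (fun h => hy ((key2 hxy.symm).1 h))]
    exact Tr.of_sw (Sw.swap x y w hxy)

theorem length_act_le (x : V × Bool) (w : List (V × Bool)) :
    (VRaag.act Γ x w).length ≤ w.length + 1 := by
  by_cases hx : inv x ∈ First Γ w
  · rw [act_pos hx]
    exact (List.length_erase_le).trans (Nat.le_succ _)
  · rw [act_neg hx]
    simp

theorem length_act_eq {x : V × Bool} {w : List (V × Bool)}
    (h : (VRaag.act Γ x w).length = w.length + 1) : inv x ∉ First Γ w := by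
  intro hx
  rw [act_pos hx] at h
  have := List.length_erase_le (a := inv x) (l := w)
  omega

variable (Γ) in
/-- reduction of a word -/
noncomputable def reduce (w : List (V × Bool)) : List (V × Bool) := w.foldr (VRaag.act Γ) []

theorem reduce_red (w : List (V × Bool)) : Red Γ (reduce Γ w) := by
  induction w with
  | nil => trivial
  | cons x w ih => exact ih.act x

theorem reduce_of_red {w : List (V × Bool)} (h : Red Γ w) : reduce Γ w = w := by
  induction w with
  | nil => rfl
  | cons x w ih =>
    change VRaag.act Γ x (reduce Γ w) = _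
    rw [ih h.1, act_neg h.2]

theorem length_reduce_le (w : List (V × Bool)) : (reduce Γ w).length ≤ w.length := by
  induction w with
  | nil => simp [reduce]
  | cons x w ih =>
    change (VRaag.act Γ x (reduce Γ w)).length ≤ _
    have := length_act_le (Γ := Γ) x (reduce Γ w)
    simp only [List.length_cons]
    omega

theorem red_of_length_reduce {w : List (V × Bool)} (h : (reduce Γ w).length = w.length) :
    Red Γ w := by
  induction w with
  | nil => trivial
  | cons x w ih =>
    change (VRaag.act Γ x (reduce Γ w)).length = _ at h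
    have h1 := length_act_le (Γ := Γ) x (reduce Γ w)
    have h2 := length_reduce_le (Γ := Γ) w
    simp only [List.length_cons] at h
    have h3 : Red Γ w := ih (by omega)
    rw [reduce_of_red h3] at h
    exact ⟨h3, length_act_eq h⟩

end erase

/-! ### The action of graph automorphisms on words -/

/-- action of a map of vertices on letters -/
def ml (ψ : Γ ≃g Γ) (x : V × Bool) : V × Bool := (ψ x.1, x.2)

@[simp] theorem ml_fst (ψ : Γ ≃g Γ) (x : V × Bool) : (ml ψ x).1 = ψ x.1 := rfl

@[simp] theorem ml_inv (ψ : Γ ≃g Γ) (x : V × Bool) : ml ψ (inv x) = inv (ml ψ x) := rfl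

theorem ml_one (x : V × Bool) : ml (1 : Γ ≃g Γ) x = x := rfl

theorem ml_mul (ψ ψ' : Γ ≃g Γ) (x : V × Bool) : ml (ψ * ψ') x = ml ψ (ml ψ' x) := rfl

theorem ml_injective (ψ : Γ ≃g Γ) : Function.Injective (ml ψ) := by
  intro x y h
  have h1 := congrArg Prod.fst h
  have h2 := congrArg Prod.snd h
  exact Prod.ext (ψ.injective h1) h2

theorem mem_First_map (ψ : Γ ≃g Γ) {w : List (V × Bool)} {y : V × Bool} :
    ml ψ y ∈ First Γ (w.map (ml ψ)) ↔ y ∈ First Γ w := by
  induction w with
  | nil => simp
  | cons x w ih =>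
    simp only [List.map_cons, mem_First_cons, ih, ml_fst, ψ.map_adj_iff,
      (ml_injective ψ).eq_iff]

theorem mem_First_map' (ψ : Γ ≃g Γ) {w : List (V × Bool)} {y : V × Bool} :
    y ∈ First Γ (w.map (ml ψ)) ↔ ml ψ⁻¹ y ∈ First Γ w := by
  have h := mem_First_map (Γ := Γ) ψ (w := w) (y := ml ψ⁻¹ y)
  rwa [← ml_mul, mul_inv_cancel, ml_one] at h

theorem mem_Last_map' (ψ : Γ ≃g Γ) {w : List (V × Bool)} {y : V × Bool} :
    y ∈ Last Γ (w.map (ml ψ)) ↔ ml ψ⁻¹ y ∈ Last Γ w := by
  rw [Last, ← List.map_reverse, mem_First_map']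
  rfl

theorem Red_map (ψ : Γ ≃g Γ) {w : List (V × Bool)} : Red Γ (w.map (ml ψ)) ↔ Red Γ w := by
  induction w with
  | nil => simp
  | cons x w ih =>
    simp only [List.map_cons, Red_cons, ih]
    rw [← ml_inv, mem_First_map]

theorem Sw.map (ψ : Γ ≃g Γ) {w w' : List (V × Bool)} (h : Sw Γ w w') :
    Sw Γ (w.map (ml ψ)) (w'.map (ml ψ)) := by
  induction h with
  | swap x y w h => exact Sw.swap _ _ _ (ψ.map_adj_iff.2 h)
  | cons x h ih => exact Sw.cons _ ih

theorem Tr.map (ψ : Γ ≃g Γ) {w w' : List (V × Bool)} (h : Tr Γ w w') :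
    Tr Γ (w.map (ml ψ)) (w'.map (ml ψ)) := by
  induction h with
  | rel w w' h => exact Tr.of_sw (h.map ψ)
  | refl w => exact Tr.refl _
  | symm _ _ _ ih => exact ih.symm
  | trans _ _ _ _ _ ih1 ih2 => exact ih1.trans ih2

theorem act_map [DecidableEq V] (ψ : Γ ≃g Γ) (x : V × Bool) (w : List (V × Bool)) :
    act Γ (ml ψ x) (w.map (ml ψ)) = (act Γ x w).map (ml ψ) := by
  by_cases hx : inv x ∈ First Γ w
  · rw [act_pos hx, act_pos (by rw [← ml_inv, mem_First_map]; exact hx), ← ml_inv,
      List.map_erase (ml_injective ψ)]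
  · rw [act_neg hx, act_neg (by rw [← ml_inv, mem_First_map]; exact hx)]
    rfl

end Pool.Agent.Helper6.VRaag
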